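import Pool.Agent.N116.EW.Stm

/-!
Project EW (helper116), task 1E (helper592): restriction and dichotomy for the mixed four arms at
an edge.  Purely deterministic.
-/

set_option autoImplicit false

namespace Pool.Agent.N592.EW

open H974 H12S H389NS Finset
open Pool.Agent.N116.EW
open Pool.Agent.W424.OD (AE A3v)

/-! ### Paths -/

theorem bdB_far {c : ℤ × ℤ} {k k' : ℕ} (h : k ≤ k') {w : Vtx} (hw : w ∈ bdB c k') :
    w.1 ≤ c.1 - k ∨ c.1 + k ≤ w.1 ∨ w.2 ≤ c.2 - k ∨ c.2 + k ≤ w.2 := by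
  obtain ⟨-, -, h3⟩ := hw
  rcases h3 with h3 | h3
  · rcases abs_choice (w.1 - c.1) with e | e <;> rw [e] at h3 <;> omega
  · rcases abs_choice (w.2 - c.2) with e | e <;> rw [e] at h3 <;> omega

theorem bdB_of {c : ℤ × ℤ} {k : ℕ} {w : Vtx}
    (h1 : inR (c.1 - k) (c.1 + k) (c.2 - k) (c.2 + k) w)
    (h2 : w.1 = c.1 - k ∨ w.1 = c.1 + k ∨ w.2 = c.2 - k ∨ w.2 = c.2 + k) : w ∈ bdB c k := by
  unfold inR at h1
  refine ⟨by rw [abs_le]; omega, by rw [abs_le]; omega, ?_⟩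
  rcases h2 with h | h | h | h
  · left; rw [h, show c.1 - (k:ℤ) - c.1 = -(k:ℤ) by ring, abs_neg, Nat.abs_cast]
  · left; rw [h, show c.1 + (k:ℤ) - c.1 = (k:ℤ) by ring, Nat.abs_cast]
  · right; rw [h, show c.2 - (k:ℤ) - c.2 = -(k:ℤ) by ring, abs_neg, Nat.abs_cast]
  · right; rw [h, show c.2 + (k:ℤ) - c.2 = (k:ℤ) by ring, Nat.abs_cast]

/-- The part of a path after its last visit of the box. -/
theorem last_visit {H : Set Edg} {c : ℤ × ℤ} {d : ℕ} {x : Vtx}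
    (hx : inR (c.1 - d) (c.1 + d) (c.2 - d) (c.2 + d) x) :
    ∀ {z : Vtx}, Reach H x z →
      (z.1 ≤ c.1 - d ∨ c.1 + d ≤ z.1 ∨ z.2 ≤ c.2 - d ∨ c.2 + d ≤ z.2) →
      ∃ u ∈ bdB c d, Reach H x u ∧ Reach (H \ ↑(blk c d)) u z := by
  have key : ∀ z : Vtx, Reach H x z →
      (c.1 - d < z.1 ∧ z.1 < c.1 + d ∧ c.2 - d < z.2 ∧ z.2 < c.2 + d) ∨
      ∃ u ∈ bdB c d, Reach H x u ∧ Reach (H \ ↑(blk c d)) u z := by
    intro z hz
    induction hz with
    | refl =>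
      by_cases hb : x.1 = c.1 - d ∨ x.1 = c.1 + d ∨ x.2 = c.2 - d ∨ x.2 = c.2 + d
      · exact Or.inr ⟨x, bdB_of hx hb, Reach.refl _ _, Reach.refl _ _⟩
      · left
        unfold inR at hx
        omega
    | @tail y z hy hs ih =>
      have hs' : Adj H y z := hs
      obtain ⟨g, hg, hcase⟩ := hs
      have hrz : Reach H x z := Relation.ReflTransGen.tail hy hs'
      have fin : inR (c.1 - d) (c.1 + d) (c.2 - d) (c.2 + d) z →
          (c.1 - d < z.1 ∧ z.1 < c.1 + d ∧ c.2 - d < z.2 ∧ z.2 < c.2 + d) ∨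
          ∃ u ∈ bdB c d, Reach H x u ∧ Reach (H \ ↑(blk c d)) u z := by
        intro hin
        by_cases hb : z.1 = c.1 - d ∨ z.1 = c.1 + d ∨ z.2 = c.2 - d ∨ z.2 = c.2 + d
        · exact Or.inr ⟨z, bdB_of hin hb, hrz, Reach.refl _ _⟩
        · left
          unfold inR at hin
          omega
      rcases ih with ih | ⟨u, hu, h1, h2⟩
      · apply fin
        obtain ⟨x0, y0, bo⟩ := g
        unfold inR
        cases bo
        · simp only [src_mk, tgt_false] at hcase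
          rcases hcase with ⟨h3, h4⟩ | ⟨h3, h4⟩
          · rw [← h3] at ih; rw [← h4]; simp only at ih ⊢; omega
          · rw [← h4] at ih; rw [← h3]; simp only at ih ⊢; omega
        · simp only [src_mk, tgt_true] at hcase
          rcases hcase with ⟨h3, h4⟩ | ⟨h3, h4⟩
          · rw [← h3] at ih; rw [← h4]; simp only at ih ⊢; omega
          · rw [← h4] at ih; rw [← h3]; simp only at ih ⊢; omega
      · by_cases hgb : g ∈ blk c d
        · apply fin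
          unfold blk at hgb
          obtain ⟨x0, y0, bo⟩ := g
          unfold inR
          cases bo
          · rw [mem_RE_false] at hgb
            simp only [src_mk, tgt_false] at hcase
            rcases hcase with ⟨h3, h4⟩ | ⟨h3, h4⟩
            · rw [← h4]; simp only; omega
            · rw [← h3]; simp only; omega
          · rw [mem_RE_true] at hgb
            simp only [src_mk, tgt_true] at hcase
            rcases hcase with ⟨h3, h4⟩ | ⟨h3, h4⟩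
            · rw [← h4]; simp only; omega
            · rw [← h3]; simp only; omega
        · right
          refine ⟨u, hu, h1, h2.trans (Adj.reach ⟨g, ⟨hg, ?_⟩, hcase⟩)⟩
          rwa [Finset.mem_coe]
  intro z hz hfar
  rcases key z hz with h | h
  · omega
  · exact h

/-- A path off a set of vertices stays off. -/
theorem off_stay {H : Set Edg} {K : Set Vtx} {v z : Vtx} (hv : v ∉ K)
    (hH : ∀ g ∈ H, src g ∉ K ∧ tgt g ∉ K) (h : Reach H v z) : z ∉ K := by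
  induction h with
  | refl => exact hv
  | tail _ hs _ =>
    obtain ⟨g, hg, ⟨-, h2⟩ | ⟨h1, -⟩⟩ := hs
    · rw [← h2]; exact (hH g hg).2
    · rw [← h1]; exact (hH g hg).1

/-- The first edge of a path which enters a set of vertices. -/
theorem first_enter {H : Set Edg} {K : Set Vtx} {v x : Vtx} (hv : v ∉ K) (hx : x ∈ K)
    (h : Reach H v x) : ∃ (g : Edg) (q p : Vtx), g ∈ H ∧
      ((src g = q ∧ tgt g = p) ∨ (src g = p ∧ tgt g = q)) ∧ q ∉ K ∧ p ∈ K ∧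
      Reach {g | g ∈ H ∧ src g ∉ K ∧ tgt g ∉ K} v q := by
  have key : ∀ z : Vtx, Reach H v z →
      (∃ (g : Edg) (q p : Vtx), g ∈ H ∧
        ((src g = q ∧ tgt g = p) ∨ (src g = p ∧ tgt g = q)) ∧ q ∉ K ∧ p ∈ K ∧
        Reach {g | g ∈ H ∧ src g ∉ K ∧ tgt g ∉ K} v q) ∨
      (z ∉ K ∧ Reach {g | g ∈ H ∧ src g ∉ K ∧ tgt g ∉ K} v z) := by
    intro z hz
    induction hz with
    | refl => exact Or.inr ⟨hv, Reach.refl _ _⟩
    | @tail y z hy hs ih =>
      rcases ih with ih | ⟨ih1, ih2⟩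
      · exact Or.inl ih
      · obtain ⟨g, hg, hcase⟩ := hs
        by_cases hz : z ∈ K
        · exact Or.inl ⟨g, y, z, hg, hcase, ih1, hz, ih2⟩
        · refine Or.inr ⟨hz, ih2.trans (Adj.reach ⟨g, ⟨hg, ?_⟩, hcase⟩)⟩
          rcases hcase with ⟨h1, h2⟩ | ⟨h1, h2⟩
          · rw [h1, h2]; exact ⟨ih1, hz⟩
          · rw [h1, h2]; exact ⟨hz, ih1⟩
  rcases key x h with h | h
  · exact h
  · exact absurd hx h.1

/-! ### Boxes -/

theorem blk_mono' (c : ℤ × ℤ) {d k : ℕ} (h : d ≤ k) : blk c d ⊆ blk c k := by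
  unfold blk
  exact RE_subset (by omega) (by omega) (by omega) (by omega)

theorem self_mem_blk (e : Edg) {d : ℕ} (h : 1 ≤ d) : e ∈ blk (src e) d := by
  obtain ⟨x, y, b⟩ := e
  unfold blk
  cases b
  · rw [mem_RE_false]; simp only [src_mk]; omega
  · rw [mem_RE_true]; simp only [src_mk]; omega

theorem En_inR {e : Edg} {x v : Vtx} (h : En e x v) {d : ℕ} (hd : 1 ≤ d) :
    inR ((src e).1 - d) ((src e).1 + d) ((src e).2 - d) ((src e).2 + d) x ∧
    inR ((src e).1 - d) ((src e).1 + d) ((src e).2 - d) ((src e).2 + d) v := by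
  obtain ⟨x0, y0, b⟩ := e
  rcases h with ⟨h1, h2⟩ | ⟨h1, h2⟩ <;> rw [h1, h2] <;> cases b <;>
    simp only [src_mk, tgt_false, tgt_true, inR] <;> omega

/-! ### Restriction -/

theorem xeSub : S_XEsub := by
  rintro e m F G ⟨x, v, hen, hv, ⟨w, hw, hxw⟩, w', hw', hvw'⟩
  constructor
  · intro d hd hdm
    obtain ⟨hix, hiv⟩ := En_inR hen hd
    obtain ⟨u, hu, hxu, huw⟩ := last_visit hix hxw (bdB_far hdm hw)
    obtain ⟨x', hx', hvx', hx'w⟩ := last_visit hiv hvw' (bdB_far hdm hw')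
    have hsub : F ∩ AE (src e) d m ⊆ (F \ {e}) ∩ ↑(blk (src e) m) := by
      rintro g ⟨hg, hg2⟩
      unfold AE at hg2
      rw [Finset.mem_coe, Finset.mem_sdiff] at hg2
      refine ⟨⟨hg, ?_⟩, Finset.mem_coe.mpr hg2.1⟩
      rintro rfl
      exact hg2.2 (self_mem_blk _ hd)
    have hcl : ∀ z, z ∈ Pool.Agent.W424.OD.Cl (src e) d m F u → z ∈ CB (src e) m (F \ {e}) x := by
      intro z hz
      exact hxu.trans (Reach.mono hsub hz)
    refine ⟨u, hu, ⟨w, hw, ?_⟩, x', hx', w', hw', ?_, ?_⟩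
    · refine Reach.mono ?_ huw
      rintro g ⟨⟨hg, hg2⟩, hg3⟩
      refine ⟨hg.1, ?_⟩
      unfold AE
      rw [Finset.mem_coe, Finset.mem_sdiff]
      exact ⟨Finset.mem_coe.mp hg2, fun h => hg3 (Finset.mem_coe.mpr h)⟩
    · intro hc
      exact off_stay hv (fun g hg => hg.1.2) hvx' (hcl _ hc)
    · refine Reach.mono ?_ hx'w
      rintro g ⟨⟨hg, hg2⟩, hg3⟩
      refine ⟨⟨hg.1.1, fun h => hg.2.1 (hcl _ h), fun h => hg.2.2 (hcl _ h)⟩, ?_⟩
      unfold AE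
      rw [Finset.mem_coe, Finset.mem_sdiff]
      exact ⟨Finset.mem_coe.mp hg2, fun h => hg3 (Finset.mem_coe.mpr h)⟩
  · intro m' h1 hm'
    obtain ⟨hix, hiv⟩ := En_inR hen h1
    obtain ⟨w1, a1, a2, a3⟩ := first_exit hix hxw (bdB_far hm' hw)
    obtain ⟨w2, b1, b2, b3⟩ := first_exit hiv hvw' (bdB_far hm' hw')
    have hcl : ∀ z, z ∈ CB (src e) m' (F \ {e}) x → z ∈ CB (src e) m (F \ {e}) x := by
      intro z hz
      refine Reach.mono ?_ hz
      rintro g ⟨hg, hg2⟩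
      exact ⟨hg, Finset.mem_coe.mpr (blk_mono' _ hm' (Finset.mem_coe.mp hg2))⟩
    refine ⟨x, v, hen, fun h => hv (hcl _ h), ⟨w1, bdB_of a1 a2, ?_⟩, w2, bdB_of b1 b2, ?_⟩
    · refine Reach.mono ?_ a3
      rintro g ⟨⟨hg, hg2⟩, hg3⟩
      exact ⟨hg, hg3⟩
    · refine Reach.mono ?_ b3
      rintro g ⟨⟨hg, hg2⟩, hg3⟩
      exact ⟨⟨hg.1, fun h => hg.2.1 (hcl _ h), fun h => hg.2.2 (hcl _ h)⟩, hg3⟩

/-! ### Dichotomy -/

theorem nrm_le {c : ℤ × ℤ} {h : ℕ} {g : Edg} (hg : g ∈ blk c h) : nrm c g ≤ h := by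
  obtain ⟨x, y, b⟩ := g
  unfold blk at hg
  unfold nrm
  cases b
  · rw [mem_RE_false] at hg; simp only; omega
  · rw [mem_RE_true] at hg; simp only; omega

theorem near_sub {c : ℤ × ℤ} {g : Edg} {k m : ℕ} (h : nrm c g + k ≤ m) :
    blk (src g) k ⊆ blk c m := by
  obtain ⟨x, y, b⟩ := g
  unfold nrm at h
  simp only at h
  unfold blk
  simp only [src_mk]
  exact RE_subset (by omega) (by omega) (by omega) (by omega)

theorem near_ne {e g : Edg} {k : ℕ} (h : 4 * k ≤ nrm (src e) g) :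
    e ∉ blk (src g) k := by
  obtain ⟨x, y, b⟩ := g
  obtain ⟨x', y', b'⟩ := e
  unfold nrm at h
  simp only [src_mk] at h
  unfold blk
  cases b'
  · rw [mem_RE_false]; simp only [src_mk]; omega
  · rw [mem_RE_true]; simp only [src_mk]; omega

theorem near_far {e g : Edg} {x v : Vtx} (hen : En e x v) {k : ℕ} (h1 : 1 ≤ k)
    (h : 4 * k ≤ nrm (src e) g) :
    (x.1 ≤ (src g).1 - k ∨ (src g).1 + k ≤ x.1 ∨ x.2 ≤ (src g).2 - k ∨ (src g).2 + k ≤ x.2) ∧
    (v.1 ≤ (src g).1 - k ∨ (src g).1 + k ≤ v.1 ∨ v.2 ≤ (src g).2 - k ∨ (src g).2 + k ≤ v.2) := by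
  obtain ⟨x', y', b'⟩ := e
  obtain ⟨a, c, b⟩ := g
  unfold nrm at h
  simp only [src_mk] at h
  rcases hen with ⟨h2, h3⟩ | ⟨h2, h3⟩ <;> rw [h2, h3] <;> cases b' <;>
    simp only [src_mk, tgt_false, tgt_true] <;> omega

theorem dichE : S_DICHE := by
  rintro e m F G hm hFG hXE
  obtain ⟨hA, hB⟩ := xeSub e m F G hXE
  obtain ⟨x, v, hen, hv, ⟨w, hw, hxw⟩, w', hw', hvw'⟩ := hXE
  have hh : 1 ≤ m / 2 := by omega
  have hhm : m / 2 ≤ m := by omega
  obtain ⟨hix, hiv⟩ := En_inR hen hh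
  obtain ⟨w1, a1, a2, a3⟩ := first_exit hix hxw (bdB_far hhm hw)
  obtain ⟨w2, b1, b2, b3⟩ := first_exit hiv hvw' (bdB_far hhm hw')
  -- the two arms in the smaller box
  have r1 : Reach ((G ∩ ↑(RE ((src e).1 - (m / 2 : ℕ)) ((src e).1 + (m / 2 : ℕ))
      ((src e).2 - (m / 2 : ℕ)) ((src e).2 + (m / 2 : ℕ)))) \ {e}) x w1 := by
    refine Reach.mono ?_ a3
    rintro g ⟨⟨hg, hg2⟩, hg3⟩
    exact ⟨⟨hFG hg.1, hg3⟩, hg.2⟩
  have r2 : Reach ((G ∩ ↑(RE ((src e).1 - (m / 2 : ℕ)) ((src e).1 + (m / 2 : ℕ))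
      ((src e).2 - (m / 2 : ℕ)) ((src e).2 + (m / 2 : ℕ)))) \ {e}) v w2 := by
    refine Reach.mono ?_ b3
    rintro g ⟨⟨hg, hg2⟩, hg3⟩
    exact ⟨⟨hg.1.1, hg3⟩, hg.1.2⟩
  by_cases hc : Reach ((G ∩ ↑(RE ((src e).1 - (m / 2 : ℕ)) ((src e).1 + (m / 2 : ℕ))
      ((src e).2 - (m / 2 : ℕ)) ((src e).2 + (m / 2 : ℕ)))) \ {e}) v x
  · right
    obtain ⟨g, q, p, hg, hcase, hq, hp, hvq⟩ := first_enter
      (K := CB (src e) m (F \ {e}) x) hv (Reach.refl _ _) hc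
    have hge : g ≠ e := hg.2
    have hgG : g ∈ G := hg.1.1
    have hgb : g ∈ blk (src e) (m / 2) := Finset.mem_coe.mp hg.1.2
    have hgF : g ∉ F := by
      intro hgF
      apply hq
      refine Reach.trans hp (Adj.reach ⟨g, ⟨⟨hgF, hge⟩, ?_⟩, hcase.symm⟩)
      exact Finset.mem_coe.mpr (blk_mono' _ hhm hgb)
    have hD := nrm_le hgb
    refine ⟨g, hgb, hge, hgG, hgF, ?_, ?_, ?_⟩
    · intro h4
      have h4D : 4 * (nrm (src e) g / 4) ≤ nrm (src e) g := by omega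
      generalize hk : nrm (src e) g / 4 = k at h4 h4D ⊢
      have hkm : nrm (src e) g + k ≤ m := by omega
      have hsub := near_sub hkm
      have hne := near_ne h4D
      have hcl : ∀ z, z ∈ CB (src g) k (F \ {g}) p → z ∈ CB (src e) m (F \ {e}) x := by
        intro z hz
        refine Reach.trans hp (Reach.mono ?_ hz)
        rintro f ⟨hf, hf2⟩
        have hf3 := Finset.mem_coe.mp hf2
        refine ⟨⟨hf.1, ?_⟩, Finset.mem_coe.mpr (hsub hf3)⟩
        rintro rfl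
        exact hne hf3
      have hen' : En g p q := by
        rcases hcase with ⟨h1, h2⟩ | ⟨h1, h2⟩
        · exact Or.inr ⟨h2.symm, h1.symm⟩
        · exact Or.inl ⟨h1.symm, h2.symm⟩
      obtain ⟨hip, hiq⟩ := En_inR hen' h4
      obtain ⟨fx, fv⟩ := near_far hen h4 h4D
      obtain ⟨w3, c1, c2, c3⟩ := first_exit hip (Reach.symm hp) fx
      obtain ⟨w4, d1, d2, d3⟩ := first_exit hiq (Reach.symm hvq) fv
      have hpg : ¬ (src g ∉ CB (src e) m (F \ {e}) x ∧ tgt g ∉ CB (src e) m (F \ {e}) x) := by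
        rintro ⟨k1, k2⟩
        rcases hcase with ⟨h1, h2⟩ | ⟨h1, h2⟩
        · rw [h2] at k2; exact k2 hp
        · rw [h1] at k1; exact k1 hp
      refine ⟨p, q, hen', fun h => hq (hcl _ h), ⟨w3, bdB_of c1 c2, ?_⟩, w4,
        bdB_of d1 d2, ?_⟩
      · refine Reach.mono ?_ c3
        rintro f ⟨⟨hf, hf2⟩, hf3⟩
        refine ⟨⟨hf.1, ?_⟩, hf3⟩
        rintro rfl
        exact hgF hf.1
      · refine Reach.mono ?_ d3
        rintro f ⟨⟨hf, hf2⟩, hf3⟩
        refine ⟨⟨⟨hf.1.1, ?_⟩, fun h => hf2.1 (hcl _ h), fun h => hf2.2 (hcl _ h)⟩, hf3⟩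
        rintro rfl
        exact hpg hf2
    · intro h2
      exact hB _ h2 (by omega)
    · exact hA _ (le_max_left _ _) (max_le (by omega) (by omega))
  · left
    rcases hen with ⟨h1, h2⟩ | ⟨h1, h2⟩
    · rw [h1] at r1 hc
      rw [h2] at r2 hc
      exact ⟨⟨w1, ⟨a1, a2⟩, r1⟩, ⟨w2, ⟨b1, b2⟩, r2⟩, fun h => hc h.symm⟩
    · rw [h1] at r1 hc
      rw [h2] at r2 hc
      exact ⟨⟨w2, ⟨b1, b2⟩, r2⟩, ⟨w1, ⟨a1, a2⟩, r1⟩, hc⟩

end Pool.Agent.N592.EW
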