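import Pool.Agent.N116.EW.Vis
import Pool.Agent.N116.EW.Law
import Pool.Agent.N144.EW.DetA
import Pool.Agent.H984R4.NP.Arms

/-!
Project EW (helper116), part 12 (helper592): the near-critical one-point bound.
-/

set_option autoImplicit false

namespace Pool.Agent.N592.EW

open H974 H12S H389NS H984N H984P H342P Finset
open Pool.Agent.N116.EW
open Pool.Agent.N144.EW (sd_le_iff le_sd_iff blk_iff exitBox lastBox lastBoxD bd_wir bd_near bd_le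
  edges_of_bd)

/-- no wired edge in a box away from the boundary -/
theorem cfg_blk {D : Dm} {H : Finset Edg} {x : Vtx} {m : ℕ} (hb : (m : ℤ) + 1 ≤ D.bd x) {g : Edg}
    (hg : g ∈ D.cfg H) (hg2 : g ∈ blk x m) : g ∈ H := by
  rcases hg with hg | hg
  · exact Finset.mem_coe.1 hg
  · exfalso
    have h1 := bd_wir hg
    rw [blk_iff] at hg2
    have h2 := bd_near (D := D) hg2.1
    omega

theorem blk_edges {D : Dm} {x : Vtx} {m : ℕ} (hb : (m : ℤ) + 1 ≤ D.bd x) :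
    blk x m ⊆ D.edges := by
  intro g hg
  rw [blk_iff] at hg
  have h2 := bd_near (D := D) hg.1
  exact edges_of_bd (by omega)

/-- a visited vertex has two arms -/
theorem vis_T2 {D : Dm} {H : Finset Edg} {x : Vtx} {q : Q4} {m : ℕ} (hm : 1 ≤ m)
    (hb : (m : ℤ) + 1 ≤ D.bd x) (h1 : x ∈ D.clu H) (h2 : face ((x, q) : St) ∈ D.dclu H) :
    T2 x 1 m (↑H : Set Edg) := by
  obtain ⟨b1, b2, b3, b4⟩ := bd_le (D := D) (c := x)
  constructor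
  · have h3 : Reach (D.cfg H) (0, 0) x := h1
    have h0 : (m : ℤ) ≤ sd ((0, 0) : Vtx) x := by
      rw [le_sd_iff]
      right; right
      show (m : ℤ) ≤ -(0 - x.2)
      omega
    obtain ⟨w', hw1, hw2⟩ := exitBox h0 h3.symm (by rw [sd_le_iff]; omega)
    obtain ⟨u, hu1, hu2⟩ := lastBox (c := x) (d := 1) (by rw [sd_le_iff]; push_cast; omega) hw2
    rw [sd_le_iff] at hu1
    refine ⟨u, w', ?_, ?_, ?_⟩
    · unfold inR
      push_cast at hu1 ⊢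
      omega
    · obtain ⟨-, -, h4⟩ := hw1
      rcases h4 with h4 | h4
      · rcases abs_choice (w'.1 - x.1) with e | e <;> rw [e] at h4 <;> omega
      · rcases abs_choice (w'.2 - x.2) with e | e <;> rw [e] at h4 <;> omega
    · refine Reach.mono ?_ hu2
      rintro g ⟨⟨g1, g2⟩, g3⟩
      exact ⟨Finset.mem_coe.2 (cfg_blk hb g1 (Finset.mem_coe.1 g2)), g2, g3⟩
  · obtain ⟨g, hg, h3⟩ := h2
    have hf := arms_face ((x, q) : St)
    obtain ⟨z, hz, hp⟩ := arms_dreach (X := (↑(blk x m) : Set Edg))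
      (G := ((↑D.edges \ D.cfg H) ∩ ↑(blk x m) : Set Edg))
      (fun z => (x.1 - m < z.1 ∧ z.1 < x.1 + m) ∧ (x.2 - m < z.2 ∧ z.2 < x.2 + m))
      (fun e _ hB => by
        rw [Finset.mem_coe]
        unfold blk
        obtain ⟨a, c, _ | _⟩ := e
        · simp only [dsrc_false, dtgt_mk] at hB
          rw [mem_RE_false]
          omega
        · simp only [dsrc_true, dtgt_mk] at hB
          rw [mem_RE_true]
          omega) (fun e he => he) h3.symm (by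
        rcases hg with hg | hg | hg <;> omega)
    simp only at hf
    obtain ⟨u, hu1, hu2⟩ := lastBoxD (c := x) (d := 1) (by rw [sd_le_iff]; push_cast; omega) hp
    rw [sd_le_iff] at hu1
    refine ⟨u, z, ?_, ?_, ?_⟩
    · unfold inR
      push_cast at hu1 ⊢
      omega
    · omega
    · refine DReach.mono ?_ hu2
      rintro e ⟨⟨g1, g2⟩, g3⟩
      exact ⟨⟨g2, g3⟩, fun h => g1.2 (Or.inl h)⟩

theorem PC_le_one {b : Bool} {η : ℝ} (h0 : 0 ≤ η) (h1 : η ≤ 1) (S : Finset Edg)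
    (A : Finset Edg → Finset Edg → Prop) : PC b η S A ≤ 1 := Pr_le_one (cw_ok h0 h1) _ _

/-- the bound for the radius `bd x - 1` -/
theorem bound {C a : ℝ} (hC : 0 ≤ C) {j : ℤ} {m : ℕ} (hm : (m : ℤ) = j - 1) (hj : 2 ≤ j)
    (ha : a ≤ C * (m : ℝ) ^ (-(1 / 4 : ℝ))) : a ≤ 3 * C * ((j : ℝ) + 1) ^ (-(1 / 4 : ℝ)) := by
  have hj' : (2 : ℝ) ≤ j := by exact_mod_cast hj
  have hm' : (m : ℝ) = j - 1 := by exact_mod_cast hm
  have h1 : ((j : ℝ) + 1) / 3 ≤ m := by rw [hm']; linarith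
  have h2 : 0 < ((j : ℝ) + 1) / 3 := by linarith
  have h3 : (m : ℝ) ^ (-(1 / 4 : ℝ)) ≤ (((j : ℝ) + 1) / 3) ^ (-(1 / 4 : ℝ)) :=
    Real.rpow_le_rpow_of_nonpos h2 h1 (by norm_num)
  have h4 : (((j : ℝ) + 1) / 3) ^ (-(1 / 4 : ℝ)) =
      ((j : ℝ) + 1) ^ (-(1 / 4 : ℝ)) * (3 : ℝ) ^ (1 / 4 : ℝ) := by
    rw [Real.div_rpow (by linarith) (by norm_num), Real.rpow_neg (by norm_num : (0:ℝ) ≤ 3),
      div_inv_eq_mul]
  have h5 : (3 : ℝ) ^ (1 / 4 : ℝ) ≤ 3 := by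
    calc (3 : ℝ) ^ (1 / 4 : ℝ) ≤ (3 : ℝ) ^ (1 : ℝ) :=
          Real.rpow_le_rpow_of_exponent_le (by norm_num) (by norm_num)
      _ = 3 := Real.rpow_one 3
  have h6 : 0 ≤ ((j : ℝ) + 1) ^ (-(1 / 4 : ℝ)) := Real.rpow_nonneg (by linarith) _
  calc a ≤ C * (m : ℝ) ^ (-(1 / 4 : ℝ)) := ha
    _ ≤ C * (((j : ℝ) + 1) ^ (-(1 / 4 : ℝ)) * (3 : ℝ) ^ (1 / 4 : ℝ)) := by
        rw [← h4]; exact mul_le_mul_of_nonneg_left h3 hC
    _ ≤ C * (((j : ℝ) + 1) ^ (-(1 / 4 : ℝ)) * 3) :=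
        mul_le_mul_of_nonneg_left (mul_le_mul_of_nonneg_left h5 h6) hC
    _ = 3 * C * ((j : ℝ) + 1) ^ (-(1 / 4 : ℝ)) := by ring

/-- EW12 -/
theorem one (h : ∀ b, S_T2 b) : S_ONE := by
  intro κ _
  obtain ⟨C1, t1, hC1, ht1, H1⟩ := h true
  obtain ⟨C0, t0, hC0, ht0, H0⟩ := h false
  refine ⟨3 * (C1 + C0 + 1), min t1 t0 / 2, by positivity, by positivity, ?_⟩
  intro n D hn hD η hη0 hη1 hη x hx b
  -- the parameters
  obtain ⟨N, hN⟩ : ∃ N : ℕ, N = ⌈n⌉₊ := ⟨_, rfl⟩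
  have hNn : n ≤ N := by rw [hN]; exact Nat.le_ceil n
  have hN2 : (N : ℝ) ≤ 2 * n := by
    have := (Nat.ceil_lt_add_one (by linarith : (0:ℝ) ≤ n)).le
    rw [hN]
    linarith
  have hN1 : 1 ≤ N := by
    have : (1 : ℝ) ≤ N := hn.trans hNn
    exact_mod_cast this
  have hηN : η * (N : ℝ) ^ (3 / 4 : ℝ) ≤ min t1 t0 := by
    have e1 : (N : ℝ) ^ (3 / 4 : ℝ) ≤ (2 * n) ^ (3 / 4 : ℝ) :=
      Real.rpow_le_rpow (Nat.cast_nonneg N) hN2 (by norm_num)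
    have e2 : (2 * n) ^ (3 / 4 : ℝ) = (2 : ℝ) ^ (3 / 4 : ℝ) * n ^ (3 / 4 : ℝ) :=
      Real.mul_rpow (by norm_num) (by linarith)
    have e3 : (2 : ℝ) ^ (3 / 4 : ℝ) ≤ 2 := by
      calc (2 : ℝ) ^ (3 / 4 : ℝ) ≤ (2 : ℝ) ^ (1 : ℝ) :=
            Real.rpow_le_rpow_of_exponent_le (by norm_num) (by norm_num)
        _ = 2 := Real.rpow_one 2
    have e4 : 0 ≤ n ^ (3 / 4 : ℝ) := Real.rpow_nonneg (by linarith) _
    calc η * (N : ℝ) ^ (3 / 4 : ℝ) ≤ η * ((2 : ℝ) ^ (3 / 4 : ℝ) * n ^ (3 / 4 : ℝ)) := by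
          rw [← e2]; exact mul_le_mul_of_nonneg_left e1 hη0
      _ ≤ η * (2 * n ^ (3 / 4 : ℝ)) :=
          mul_le_mul_of_nonneg_left (mul_le_mul_of_nonneg_right e3 e4) hη0
      _ = 2 * (η * n ^ (3 / 4 : ℝ)) := by ring
      _ ≤ min t1 t0 := by linarith
  have hbd0 : 0 ≤ D.bd x := by
    unfold inR at hx
    unfold Dm.bd
    omega
  by_cases hj : 2 ≤ D.bd x
  · obtain ⟨m, hm⟩ : ∃ m : ℕ, (m : ℤ) = D.bd x - 1 := ⟨(D.bd x - 1).toNat, by omega⟩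
    have hm1 : 1 ≤ m := by omega
    have hmb : (m : ℤ) + 1 ≤ D.bd x := by omega
    have hmN : m ≤ N := by
      obtain ⟨b1, b2, b3, b4⟩ := bd_le (D := D) (c := x)
      have h1 : (m : ℤ) ≤ D.h := by omega
      have h2 : ((m : ℤ) : ℝ) ≤ (D.h : ℝ) := by exact_mod_cast h1
      have h3 : (m : ℝ) ≤ N := by
        have := hD.h_le
        rw [Int.cast_natCast] at h2
        linarith
      exact_mod_cast h3
    have hS := blk_edges hmb
    have e1 : PC b η D.edges (fun F _ => ∃ q : Q4, x ∈ D.clu F ∧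
        face ((x, q) : St) ∈ D.dclu F) ≤ PC b η D.edges (fun F _ => T2 x 1 m ↑F) := by
      apply Pr_mono (cw_ok hη0 hη1)
      rintro K _ ⟨q, q1, q2⟩
      exact vis_T2 hm1 hmb q1 q2
    have e2 : PC b η D.edges (fun _ G => ∃ q : Q4, x ∈ D.clu G ∧
        face ((x, q) : St) ∈ D.dclu G) ≤ PC b η D.edges (fun _ G => T2 x 1 m ↑G) := by
      apply Pr_mono (cw_ok hη0 hη1)
      rintro K _ ⟨q, q1, q2⟩
      exact vis_T2 hm1 hmb q1 q2
    have hex : ∃ C : ℝ, 0 ≤ C ∧ C ≤ C1 + C0 + 1 ∧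
        PC b η D.edges (fun F _ => T2 x 1 m ↑F) ≤ C * (m : ℝ) ^ (-(1 / 4 : ℝ)) ∧
        PC b η D.edges (fun _ G => T2 x 1 m ↑G) ≤ C * (m : ℝ) ^ (-(1 / 4 : ℝ)) := by
      cases b with
      | true =>
        exact ⟨C1, hC1.le, by linarith,
          H1 N η hN1 hη0 hη1 (hηN.trans (min_le_left _ _)) x m hm1 hmN D.edges hS⟩
      | false =>
        exact ⟨C0, hC0.le, by linarith,
          H0 N η hN1 hη0 hη1 (hηN.trans (min_le_right _ _)) x m hm1 hmN D.edges hS⟩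
    obtain ⟨C, hC, hCC, f1, f2⟩ := hex
    have hpow : 0 ≤ ((D.bd x : ℝ) + 1) ^ (-(1 / 4 : ℝ)) := by
      apply Real.rpow_nonneg
      have : (0 : ℝ) ≤ D.bd x := by exact_mod_cast hbd0
      linarith
    have hfin : 3 * C * ((D.bd x : ℝ) + 1) ^ (-(1 / 4 : ℝ)) ≤
        3 * (C1 + C0 + 1) * ((D.bd x : ℝ) + 1) ^ (-(1 / 4 : ℝ)) :=
      mul_le_mul_of_nonneg_right (by linarith) hpow
    exact ⟨(bound hC hm hj (e1.trans f1)).trans hfin, (bound hC hm hj (e2.trans f2)).trans hfin⟩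
  · have hj1 : (D.bd x : ℝ) ≤ 1 := by exact_mod_cast (by omega : D.bd x ≤ 1)
    have hj0 : (0 : ℝ) ≤ D.bd x := by exact_mod_cast hbd0
    have hp : (1 / 2 : ℝ) ≤ ((D.bd x : ℝ) + 1) ^ (-(1 / 4 : ℝ)) := by
      calc (1 / 2 : ℝ) = (2 : ℝ) ^ (-1 : ℝ) := by rw [Real.rpow_neg_one]; norm_num
        _ ≤ (2 : ℝ) ^ (-(1 / 4 : ℝ)) :=
            Real.rpow_le_rpow_of_exponent_le (by norm_num) (by norm_num)
        _ ≤ ((D.bd x : ℝ) + 1) ^ (-(1 / 4 : ℝ)) :=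
            Real.rpow_le_rpow_of_nonpos (by linarith) (by linarith) (by norm_num)
    have h1 : (1 : ℝ) ≤ 3 * (C1 + C0 + 1) * ((D.bd x : ℝ) + 1) ^ (-(1 / 4 : ℝ)) := by
      have h2 : (3 : ℝ) ≤ 3 * (C1 + C0 + 1) := by linarith
      calc (1 : ℝ) ≤ 3 * (1 / 2) := by norm_num
        _ ≤ 3 * (C1 + C0 + 1) * ((D.bd x : ℝ) + 1) ^ (-(1 / 4 : ℝ)) :=
            mul_le_mul h2 hp (by norm_num) (by linarith)
    exact ⟨(PC_le_one hη0 hη1 _ _).trans h1, (PC_le_one hη0 hη1 _ _).trans h1⟩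

end Pool.Agent.N592.EW
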